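import Pool.Agent.helper11.Tight.Defs

set_option linter.all false

/-! Auxiliary lemmas for mod:T4, mod:T5 -/

namespace Pool.Agent.helper11.Tight

open Finset

namespace T45

variable {V : Type*} [Fintype V] [DecidableEq V]

theorem eo_le_two_ein (H : SimpleGraph V) (A W : Finset V) : eo H A W ≤ 2 * ein H (pairs A W) := by
  classical
  unfold eo ein
  apply Finset.card_le_mul_card_image_of_maps_to (f := fun p : V × V => s(p.1, p.2))
  · intro p hp
    simp only [Finset.mem_filter, Finset.mem_product] at hp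
    simp only [Finset.mem_filter, pairs, Finset.mem_image, Finset.mem_product]
    exact ⟨⟨p, hp.1, rfl⟩, by simpa using hp.2⟩
  · intro b hb
    induction b with
    | h x y =>
      refine (Finset.card_le_card (t := {(x, y), (y, x)}) ?_).trans Finset.card_le_two
      intro p hp
      simp only [Finset.mem_filter] at hp
      have := hp.2
      rw [Sym2.eq_iff] at this
      simp only [Finset.mem_insert, Finset.mem_singleton]
      rcases this with ⟨h1, h2⟩ | ⟨h1, h2⟩
      · left; exact Prod.ext h1 h2
      · right; exact Prod.ext h1 h2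

theorem eo_le_ein (H : SimpleGraph V) (A W : Finset V) (hd : Disjoint A W) :
    eo H A W ≤ ein H (pairs A W) := by
  classical
  unfold eo ein
  apply Finset.card_le_card_of_injOn (fun p : V × V => s(p.1, p.2))
  · intro p hp
    simp only [Finset.coe_filter, Set.mem_ofPred_eq, Finset.mem_product] at hp
    simp only [Finset.coe_filter, Set.mem_ofPred_eq, pairs, Finset.mem_image, Finset.mem_product]
    exact ⟨⟨p, hp.1, rfl⟩, by simpa using hp.2⟩
  · intro p hp q hq hpq
    simp only [Finset.coe_filter, Set.mem_ofPred_eq, Finset.mem_product] at hp hq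
    simp only [Sym2.eq_iff] at hpq
    rcases hpq with ⟨h1, h2⟩ | ⟨h1, h2⟩
    · exact Prod.ext h1 h2
    · exfalso
      exact Finset.disjoint_left.1 hd hp.1.1 (h1 ▸ hq.1.2)

theorem pairs_card (A W : Finset V) : (pairs A W).card ≤ A.card * W.card := by
  unfold pairs
  exact Finset.card_image_le.trans (by rw [Finset.card_product])

theorem union_sizes {M d N : ℕ} (P : ℕ → SimpleGraph (Fin M) → Prop)
    (h : ∀ u, 1 ≤ u → u ≤ N → 10 * N * num M d (P u) ≤ (fam M d).card) :
    10 * num M d (fun H => ∃ u ∈ Finset.Icc 1 N, P u H) ≤ (fam M d).card := by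
  have h1 := num_exists (M := M) (d := d) (Finset.Icc 1 N) P
  rcases Nat.eq_zero_or_pos N with rfl | hN
  · simp at h1 ⊢
    rw [h1]
    simp
  have h2 : N * (10 * ∑ u ∈ Finset.Icc 1 N, num M d (P u)) ≤ N * (fam M d).card := by
    calc N * (10 * ∑ u ∈ Finset.Icc 1 N, num M d (P u))
        = ∑ u ∈ Finset.Icc 1 N, 10 * N * num M d (P u) := by
          rw [← Finset.mul_sum]; ring
      _ ≤ ∑ u ∈ Finset.Icc 1 N, (fam M d).card := by
          apply Finset.sum_le_sum
          intro u hu
          rw [Finset.mem_Icc] at hu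
          exact h u hu.1 hu.2
      _ = N * (fam M d).card := by simp
  exact (Nat.mul_le_mul_left 10 h1).trans (Nat.le_of_mul_le_mul_left h2 hN)

theorem size_bound {M d N x S Q : ℕ} (h1 : x * Q ≤ S * (fam M d).card) (h2 : 10 * N * S ≤ Q)
    (hQ : 0 < Q) : 10 * N * x ≤ (fam M d).card := by
  have : (10 * N * x) * Q ≤ (fam M d).card * Q := by
    calc (10 * N * x) * Q = 10 * N * (x * Q) := by ring
      _ ≤ 10 * N * (S * (fam M d).card) := Nat.mul_le_mul_left _ h1
      _ = (10 * N * S) * (fam M d).card := by ring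
      _ ≤ Q * (fam M d).card := Nat.mul_le_mul_right _ h2
      _ = (fam M d).card * Q := by ring
  exact Nat.le_of_mul_le_mul_right this hQ

theorem powersetCard_card (M u : ℕ) :
    (Finset.powersetCard u (Finset.univ : Finset (Fin M))).card ≤ M ^ u := by
  rw [Finset.card_powersetCard, Finset.card_univ, Fintype.card_fin]
  exact Nat.choose_le_pow M u

variable {A s c d M β : ℕ}

theorem s_ge (h : Par A s c d M β) : 18 ≤ s := by
  by_contra hs
  push Not at hs
  have h1 := h.hs
  have hA := h.hA
  rw [h.hc] at h1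
  have h2 : 1000 * 11 * (s + 1) ≤ 2 ^ s := by
    refine le_trans ?_ h1
    gcongr
    omega
  interval_cases s <;> omega

theorem c_ge (h : Par A s c d M β) : 2 ^ 18 ≤ c := by
  rw [h.hc]
  exact Nat.pow_le_pow_right (by norm_num) (s_ge h)

theorem c_pos (h : Par A s c d M β) : 0 < c := by
  rw [h.hc]; positivity

theorem d_ge (h : Par A s c d M β) : 2 ≤ d := by
  rw [h.hd]
  calc 2 ≤ c := by have := c_ge h; omega
    _ = c ^ 1 := (pow_one c).symm
    _ ≤ c ^ A := Nat.pow_le_pow_right (c_pos h) (by have := h.hA; omega)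

theorem M_eq (h : Par A s c d M β) : M = d ^ 3 * c := by
  rw [h.hM, h.hd]; ring

theorem M_ge (h : Par A s c d M β) : 32 * d ^ 3 ≤ M := by
  rw [M_eq h, mul_comm]
  exact Nat.mul_le_mul_left _ (by have := c_ge h; omega)

theorem β_eq (h : Par A s c d M β) : β * d = M * c := by
  rw [h.hβ, h.hM, h.hd]; ring

theorem β_eq' (h : Par A s c d M β) : β = d ^ 2 * c ^ 2 := by
  rw [h.hβ, h.hd]; ring

theorem M_two (h : Par A s c d M β) : M = 2 ^ (s * (3 * A + 1)) := by
  rw [h.hM, h.hc, pow_mul]

theorem β_two (h : Par A s c d M β) : β = 2 ^ (s * (2 * A + 2)) := by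
  rw [h.hβ, h.hc, pow_mul]

end T45

end Pool.Agent.helper11.Tight
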