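import Pool.Agent.helper11.Tight.Defs
import Pool.Agent.helper97.Tight.Aux1
import Pool.Agent.helper61.Tight.T1

set_option linter.all false

/-! mod:T4 local sparsity -/

namespace Pool.Agent.helper11.Tight

open Finset T45

theorem bad_I1 {A s c d M β : ℕ} (h : Par A s c d M β) :
    10 * num M d (fun H => ¬ I1 H β c) ≤ (fam M d).card := by
  classical
  have hs := s_ge h
  have hA := h.hA
  have hcpos := c_pos h
  have hc2 : 512 * 2 ^ (2 * s - 9) = c ^ 2 := by
    rw [h.hc, ← pow_mul, show (512 : ℕ) = 2 ^ 9 by norm_num, ← pow_add]; congr 1; omega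
  refine le_trans (Nat.mul_le_mul_left 10 (num_mono (P' := fun H => ∃ u ∈ Finset.Icc 1 (2 * β),
    ∃ U ∈ (Finset.powersetCard u (Finset.univ : Finset (Fin M))),
      u * 2 ^ (2 * s - 9) ≤ ein H (pairs U U)) ?_)) (union_sizes _ ?_)
  · intro H hH hI
    unfold I1 at hI
    push Not at hI
    obtain ⟨U, hU1, hU2⟩ := hI
    refine ⟨U.card, ?_, U, Finset.mem_powersetCard.2 ⟨Finset.subset_univ _, rfl⟩, ?_⟩
    · rw [Finset.mem_Icc]
      refine ⟨?_, hU1⟩
      rw [Nat.one_le_iff_ne_zero]
      intro h0
      rw [Finset.card_eq_zero] at h0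
      subst h0
      simp [eo] at hU2
    · have h1 := eo_le_two_ein H U U
      rw [← hc2] at hU2
      have h2 : 512 * (U.card * 2 ^ (2 * s - 9)) ≤ 512 * ein H (pairs U U) := by
        calc 512 * (U.card * 2 ^ (2 * s - 9)) = U.card * (512 * 2 ^ (2 * s - 9)) := by ring
          _ ≤ 256 * eo H U U := hU2.le
          _ ≤ 512 * ein H (pairs U U) := by omega
      exact Nat.le_of_mul_le_mul_left h2 (by norm_num)
  · intro u hu1 hu2
    have hreg := region_bound (M := M) (d := d)
      (Finset.powersetCard u (Finset.univ : Finset (Fin M)))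
      (fun U => pairs U U) (u * u) (u * 2 ^ (2 * s - 9)) (2 ^ (s - 13))
      ?_ ?_ (d_ge h) (M_ge h) ?_
    rotate_left
    · intro X hX
      rw [Finset.mem_powersetCard] at hX
      refine (pairs_card _ _).trans ?_
      rw [hX.2]
    · -- 6 * r * d * q ≤ t * M
      have e3 : 2 ^ 13 * 2 ^ (s - 13) = c := by
        rw [h.hc, ← pow_add]; congr 1; omega
      have e5 := β_eq h
      have key : 6 * u * d * 2 ^ (s - 13) ≤ 2 ^ (2 * s - 9) * M := by
        have h1 : 2 ^ 13 * (6 * u * d * 2 ^ (s - 13)) ≤ 2 ^ 13 * (2 ^ (2 * s - 9) * M) := by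
          calc 2 ^ 13 * (6 * u * d * 2 ^ (s - 13)) = 6 * u * d * (2 ^ 13 * 2 ^ (s - 13)) := by ring
            _ = 6 * u * d * c := by rw [e3]
            _ ≤ 6 * (2 * β) * d * c := by gcongr
            _ = 12 * (M * c) * c := by rw [← e5]; ring
            _ = 12 * M * c ^ 2 := by ring
            _ ≤ 16 * M * c ^ 2 := by gcongr; norm_num
            _ = 16 * M * (512 * 2 ^ (2 * s - 9)) := by rw [hc2]
            _ = 2 ^ 13 * (2 ^ (2 * s - 9) * M) := by norm_num; ring
        exact Nat.le_of_mul_le_mul_left h1 (by norm_num)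
      calc 6 * (u * u) * d * 2 ^ (s - 13)
          = u * (6 * u * d * 2 ^ (s - 13)) := by ring
        _ ≤ u * (2 ^ (2 * s - 9) * M) := Nat.mul_le_mul_left _ key
        _ = u * 2 ^ (2 * s - 9) * M := by ring
    · -- 8 * t ≤ M * d
      have e8 : c ^ 4 ≤ d := by
        rw [h.hd]; exact Nat.pow_le_pow_right hcpos (by omega)
      have e9 : 2 * β * c ≤ M := by
        calc 2 * β * c ≤ c * β * c := by
              have : 2 ≤ c := by have := c_ge h; omega
              gcongr
          _ = c ^ 2 * (d ^ 2 * c ^ 2) := by rw [← β_eq' h]; ring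
          _ = d ^ 2 * c ^ 4 := by ring
          _ ≤ d ^ 2 * d := Nat.mul_le_mul_left _ e8
          _ = d ^ 3 * 1 := by ring
          _ ≤ d ^ 3 * c := Nat.mul_le_mul_left _ hcpos
          _ = M := (M_eq h).symm
      calc 8 * (u * 2 ^ (2 * s - 9)) ≤ u * (512 * 2 ^ (2 * s - 9)) := by
            nlinarith [Nat.zero_le (u * 2 ^ (2 * s - 9))]
        _ = u * c ^ 2 := by rw [hc2]
        _ ≤ (2 * β) * c ^ 2 := by gcongr
        _ = (2 * β * c) * c := by ring
        _ ≤ M * c := by gcongr
        _ ≤ M * d := by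
          gcongr
          calc c = c ^ 1 := (pow_one c).symm
            _ ≤ c ^ 4 := Nat.pow_le_pow_right hcpos (by norm_num)
            _ ≤ d := e8
    refine size_bound hreg ?_ (by positivity)
    refine (Nat.mul_le_mul_left _ (powersetCard_card _ _)).trans ?_
    have hβ2 := β_two h
    have hM2 := M_two h
    calc 10 * (2 * β) * M ^ u
        ≤ 2 ^ 5 * β * M ^ u := Nat.mul_le_mul_right _ (by omega)
      _ = 2 ^ (5 + s * (2 * A + 2) + s * (3 * A + 1) * u) := by
          rw [hβ2, hM2]
          ring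
      _ ≤ 2 ^ ((s - 13) * (u * 2 ^ (2 * s - 9))) := by
          apply Nat.pow_le_pow_right (by norm_num)
          have f1 : 5 + s * (2 * A + 2) + s * (3 * A + 1) * u ≤ u * (1000 * (A + 1) * (s + 1)) := by
            calc 5 + s * (2 * A + 2) + s * (3 * A + 1) * u
                ≤ (5 + s * (2 * A + 2)) * u + s * (3 * A + 1) * u := by
                  have := Nat.mul_le_mul_left (5 + s * (2 * A + 2)) hu1
                  omega
              _ = u * (5 + s * (2 * A + 2) + s * (3 * A + 1)) := by ring
              _ ≤ u * (1000 * (A + 1) * (s + 1)) := by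
                  apply Nat.mul_le_mul_left
                  nlinarith
          have f2 : c ≤ 2 ^ (2 * s - 9) := by
            rw [h.hc]; exact Nat.pow_le_pow_right (by norm_num) (by omega)
          calc 5 + s * (2 * A + 2) + s * (3 * A + 1) * u
              ≤ u * (1000 * (A + 1) * (s + 1)) := f1
            _ ≤ u * c := Nat.mul_le_mul_left _ h.hs
            _ = 1 * (u * c) := by ring
            _ ≤ (s - 13) * (u * 2 ^ (2 * s - 9)) := by
                gcongr
                omega
      _ = (2 ^ (s - 13)) ^ (u * 2 ^ (2 * s - 9)) := by rw [← pow_mul]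

theorem bad_I2 {A s c d M β : ℕ} (h : Par A s c d M β) :
    10 * num M d (fun H => ¬ I2 H β c) ≤ (fam M d).card := by
  classical
  have hs := s_ge h
  have hA := h.hA
  have hcpos := c_pos h
  have hc6 : 64 * 2 ^ (2 * s - 6) = c ^ 2 := by
    rw [h.hc, ← pow_mul, show (64 : ℕ) = 2 ^ 6 by norm_num, ← pow_add]; congr 1; omega
  have hc8 : 256 * 2 ^ (2 * s - 8) = c ^ 2 := by
    rw [h.hc, ← pow_mul, show (256 : ℕ) = 2 ^ 8 by norm_num, ← pow_add]; congr 1; omega
  refine le_trans (Nat.mul_le_mul_left 10 (num_mono (P' := fun H => ∃ w ∈ Finset.Icc 1 M,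
    ∃ i ∈ (Finset.powersetCard β (Finset.univ : Finset (Fin M))) ×ˢ
      (Finset.powersetCard w (Finset.univ : Finset (Fin M))),
      max (w * 2 ^ (2 * s - 6)) (β * 2 ^ (2 * s - 8)) ≤ ein H (pairs i.1 i.2)) ?_))
    (union_sizes _ ?_)
  · intro H hH hI
    unfold I2 at hI
    push Not at hI
    obtain ⟨X, W, hX, hXW, h1, h2⟩ := hI
    refine ⟨W.card, ?_, (X, W), ?_, ?_⟩
    · rw [Finset.mem_Icc]
      refine ⟨?_, ?_⟩
      · rw [Nat.one_le_iff_ne_zero]
        intro h0
        rw [Finset.card_eq_zero] at h0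
        subst h0
        simp [eo] at h1
      · have := Finset.card_le_univ W
        simpa using this
    · rw [Finset.mem_product]
      exact ⟨Finset.mem_powersetCard.2 ⟨Finset.subset_univ _, hX⟩,
        Finset.mem_powersetCard.2 ⟨Finset.subset_univ _, rfl⟩⟩
    · have h3 := eo_le_ein H X W hXW
      apply max_le
      · rw [← hc6] at h1
        have : 64 * (W.card * 2 ^ (2 * s - 6)) ≤ 64 * ein H (pairs X W) := by
          calc 64 * (W.card * 2 ^ (2 * s - 6)) = W.card * (64 * 2 ^ (2 * s - 6)) := by ring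
            _ ≤ 64 * eo H X W := h1.le
            _ ≤ 64 * ein H (pairs X W) := by omega
        exact Nat.le_of_mul_le_mul_left this (by norm_num)
      · rw [← hc8] at h2
        have : 256 * (β * 2 ^ (2 * s - 8)) ≤ 256 * ein H (pairs X W) := by
          calc 256 * (β * 2 ^ (2 * s - 8)) = β * (256 * 2 ^ (2 * s - 8)) := by ring
            _ ≤ 256 * eo H X W := h2.le
            _ ≤ 256 * ein H (pairs X W) := by omega
        exact Nat.le_of_mul_le_mul_left this (by norm_num)
  · intro w hw1 hw2
    set t := max (w * 2 ^ (2 * s - 6)) (β * 2 ^ (2 * s - 8)) with htdef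
    have ht6 : w * 2 ^ (2 * s - 6) ≤ t := le_max_left _ _
    have ht8 : β * 2 ^ (2 * s - 8) ≤ t := le_max_right _ _
    have h69 : 2 ^ (2 * s - 6) = 8 * 2 ^ (2 * s - 9) := by
      rw [show (8 : ℕ) = 2 ^ 3 by norm_num, ← pow_add]; congr 1; omega
    have h89 : 2 ^ (2 * s - 8) = 2 * 2 ^ (2 * s - 9) := by
      rw [← pow_succ']; congr 1; omega
    have hc9 : 512 * 2 ^ (2 * s - 9) = c ^ 2 := by
      rw [← hc6, h69]; ring
    have ht : (β + w) * 2 ^ (2 * s - 9) ≤ t := by
      rw [h69] at ht6
      rw [h89] at ht8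
      set z := 2 ^ (2 * s - 9)
      nlinarith [Nat.zero_le (w * z), Nat.zero_le (β * z)]
    have hreg := region_bound (M := M) (d := d)
      ((Finset.powersetCard β (Finset.univ : Finset (Fin M))) ×ˢ
        (Finset.powersetCard w (Finset.univ : Finset (Fin M))))
      (fun i => pairs i.1 i.2) (β * w) t (2 ^ (s - 9))
      ?_ ?_ (d_ge h) (M_ge h) ?_
    rotate_left
    · rintro ⟨X, Y⟩ hXY
      rw [Finset.mem_product, Finset.mem_powersetCard, Finset.mem_powersetCard] at hXY
      refine (pairs_card _ _).trans ?_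
      simp only at hXY ⊢
      rw [hXY.1.2, hXY.2.2]
    · -- 6 * r * d * q ≤ t * M
      have e5 := β_eq h
      have e3 : c * 2 ^ (s - 9) = 2 ^ (2 * s - 9) := by
        rw [h.hc, ← pow_add]; congr 1; omega
      calc 6 * (β * w) * d * 2 ^ (s - 9) = 6 * w * (β * d) * 2 ^ (s - 9) := by ring
        _ = 6 * w * (M * c) * 2 ^ (s - 9) := by rw [e5]
        _ = 6 * w * (c * 2 ^ (s - 9)) * M := by ring
        _ = 6 * w * 2 ^ (2 * s - 9) * M := by rw [e3]
        _ ≤ w * 2 ^ (2 * s - 6) * M := by
          rw [h69]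
          have : 6 * w * 2 ^ (2 * s - 9) ≤ w * (8 * 2 ^ (2 * s - 9)) := by
            nlinarith [Nat.zero_le (w * 2 ^ (2 * s - 9))]
          exact Nat.mul_le_mul_right _ this
        _ ≤ t * M := Nat.mul_le_mul_right _ ht6
    · -- 8 * t ≤ M * d
      have e8 : c ^ 4 ≤ d := by
        rw [h.hd]; exact Nat.pow_le_pow_right hcpos (by omega)
      have e10 : β ≤ M := by
        rw [β_eq' h, M_eq h]
        calc d ^ 2 * c ^ 2 ≤ d ^ 2 * d := by
              apply Nat.mul_le_mul_left
              exact (Nat.pow_le_pow_right hcpos (by norm_num)).trans e8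
          _ = d ^ 3 * 1 := by ring
          _ ≤ d ^ 3 * c := Nat.mul_le_mul_left _ hcpos
      have e11 : t ≤ M * 2 ^ (2 * s - 6) := by
        rw [htdef]
        apply max_le
        · exact Nat.mul_le_mul_right _ hw2
        · exact Nat.mul_le_mul e10 (Nat.pow_le_pow_right (by norm_num) (by omega))
      calc 8 * t ≤ 64 * (M * 2 ^ (2 * s - 6)) := by omega
        _ = M * (64 * 2 ^ (2 * s - 6)) := by ring
        _ = M * c ^ 2 := by rw [hc6]
        _ ≤ M * d := by
          gcongr
          exact (Nat.pow_le_pow_right hcpos (by norm_num)).trans e8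
    refine size_bound hreg ?_ (by positivity)
    rw [Finset.card_product]
    have hcard : (Finset.powersetCard β (Finset.univ : Finset (Fin M))).card *
        (Finset.powersetCard w (Finset.univ : Finset (Fin M))).card ≤ M ^ β * M ^ w :=
      Nat.mul_le_mul (powersetCard_card _ _) (powersetCard_card _ _)
    refine (Nat.mul_le_mul_left _ hcard).trans ?_
    have hM2 := M_two h
    calc 10 * M * (M ^ β * M ^ w)
        ≤ 2 ^ 5 * M * (M ^ β * M ^ w) := Nat.mul_le_mul_right _ (by omega)
      _ = 2 ^ 5 * M * M ^ (β + w) := by rw [pow_add]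
      _ = 2 ^ (5 + s * (3 * A + 1) + s * (3 * A + 1) * (β + w)) := by
          generalize β + w = y
          rw [hM2]
          ring
      _ ≤ 2 ^ ((s - 9) * t) := by
          apply Nat.pow_le_pow_right (by norm_num)
          have hy : 1 ≤ β + w := by omega
          have f1 : 5 + s * (3 * A + 1) + s * (3 * A + 1) * (β + w) ≤
              (β + w) * (1000 * (A + 1) * (s + 1)) := by
            calc 5 + s * (3 * A + 1) + s * (3 * A + 1) * (β + w)
                ≤ (5 + s * (3 * A + 1)) * (β + w) + s * (3 * A + 1) * (β + w) := by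
                  have := Nat.mul_le_mul_left (5 + s * (3 * A + 1)) hy
                  omega
              _ = (β + w) * (5 + s * (3 * A + 1) + s * (3 * A + 1)) := by ring
              _ ≤ (β + w) * (1000 * (A + 1) * (s + 1)) := by
                  apply Nat.mul_le_mul_left
                  nlinarith
          have f2 : c ≤ 2 ^ (2 * s - 9) := by
            rw [h.hc]; exact Nat.pow_le_pow_right (by norm_num) (by omega)
          calc 5 + s * (3 * A + 1) + s * (3 * A + 1) * (β + w)
              ≤ (β + w) * (1000 * (A + 1) * (s + 1)) := f1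
            _ ≤ (β + w) * c := Nat.mul_le_mul_left _ h.hs
            _ ≤ (β + w) * 2 ^ (2 * s - 9) := Nat.mul_le_mul_left _ f2
            _ ≤ t := ht
            _ = 1 * t := by ring
            _ ≤ (s - 9) * t := by
                gcongr
                omega
      _ = (2 ^ (s - 9)) ^ t := by rw [← pow_mul]

end Pool.Agent.helper11.Tight
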