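import Pool.Agent.helper11.Tight.Defs
import Pool.Agent.helper97.Tight.Aux1
import Pool.Agent.helper61.Tight.T1

set_option linter.all false

/-! mod:T5 expansion -/

namespace Pool.Agent.helper11.Tight

open Finset

namespace T45

variable {A s c d M β : ℕ}

theorem ein_of_not_ex (h : Par A s c d M β) {H : SimpleGraph (Fin M)} (hH : Base H d)
    {U : Finset (Fin M)} (hU : (nbs H U).card < c ^ (A - 2) * U.card) (hU2 : U.card ≤ 2 * β) :
    ∃ Z : Finset (Fin M), Z.card = c ^ (A - 2) * U.card ∧
      U.card * (2 ^ (s - 1) * c ^ (A - 1)) ≤ ein H (pairs U Z) := by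
  classical
  have hM : c ^ (A - 2) * U.card ≤ M := by
    calc c ^ (A - 2) * U.card ≤ c ^ (A - 2) * (2 * β) := Nat.mul_le_mul_left _ hU2
      _ = 2 * c ^ (3 * A) := by
        rw [h.hβ]
        have : 3 * A = (A - 2) + (2 * A + 2) := by have := h.hA; omega
        rw [this, pow_add]
        ring
      _ ≤ c * c ^ (3 * A) := Nat.mul_le_mul_right _ (by have := c_ge h; omega)
      _ = M := by rw [h.hM, pow_succ]; ring
  obtain ⟨Z, hZ1, -, hZ2⟩ := Finset.exists_subsuperset_card_eq (s := nbs H U) (t := Finset.univ)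
    (n := c ^ (A - 2) * U.card) (Finset.subset_univ _) hU.le (by simpa using hM)
  refine ⟨Z, hZ2, ?_⟩
  have h1 : eo H U Z = U.card * d := by
    unfold eo
    have : (U ×ˢ Z).filter (fun p => H.Adj p.1 p.2) = (U.sigma (fun u => nb H u)).image
        (fun p : (_ : Fin M) × Fin M => (p.1, p.2)) := by
      ext ⟨a, b⟩
      simp only [Finset.mem_filter, Finset.mem_product, Finset.mem_image, Finset.mem_sigma,
        mem_nb, Prod.mk.injEq]
      constructor
      · rintro ⟨⟨ha, hb⟩, hab⟩
        exact ⟨⟨a, b⟩, ⟨ha, hab⟩, rfl, rfl⟩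
      · rintro ⟨⟨a', b'⟩, ⟨ha, hab⟩, h1, h2⟩
        simp only at h1 h2 ha hab
        subst h1 h2
        exact ⟨⟨ha, hZ1 (mem_nbs.2 ⟨_, ha, hab⟩)⟩, hab⟩
    rw [this, Finset.card_image_of_injective, Finset.card_sigma]
    · rw [Finset.sum_congr rfl (fun u _ => hH.reg u), Finset.sum_const, smul_eq_mul]
    · rintro ⟨a, b⟩ ⟨a', b'⟩ hab
      simp only [Prod.mk.injEq] at hab
      obtain ⟨rfl, rfl⟩ := hab
      rfl
  have h2 := eo_le_two_ein H U Z
  rw [h1] at h2
  have h3 : d = 2 * (2 ^ (s - 1) * c ^ (A - 1)) := by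
    rw [h.hd]
    have hA : A = (A - 1) + 1 := by have := h.hA; omega
    conv_lhs => rw [hA, pow_succ]
    have : c = 2 * 2 ^ (s - 1) := by
      rw [h.hc, ← pow_succ']
      congr 1
      have := s_ge h
      omega
    conv_lhs => rw [mul_comm]; arg 1; rw [this]
    ring
  rw [h3] at h2
  have h4 : U.card * (2 * (2 ^ (s - 1) * c ^ (A - 1))) = 2 * (U.card * (2 ^ (s - 1) * c ^ (A - 1))) := by
    ring
  rw [h4] at h2
  exact Nat.le_of_mul_le_mul_left h2 (by norm_num)

end T45

open T45

theorem bad_ex {A s c d M β : ℕ} (h : Par A s c d M β) :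
    10 * num M d (fun H => ¬ Ex H β (c ^ (A - 2))) ≤ (fam M d).card := by
  classical
  have hs := s_ge h
  have hA := h.hA
  have hcpos := c_pos h
  set e := c ^ (A - 2) with he
  have he1 : 1 ≤ e := Nat.one_le_pow _ _ hcpos
  refine le_trans (Nat.mul_le_mul_left 10 (num_mono (P' := fun H => ∃ u ∈ Finset.Icc 1 (2 * β),
    ∃ i ∈ (Finset.powersetCard u (Finset.univ : Finset (Fin M))) ×ˢ
      (Finset.powersetCard (e * u) (Finset.univ : Finset (Fin M))),
      u * (2 ^ (s - 1) * c ^ (A - 1)) ≤ ein H (pairs i.1 i.2)) ?_)) (union_sizes _ ?_)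
  · intro H hH hex
    unfold Ex at hex
    push Not at hex
    obtain ⟨U, hU1, hU2⟩ := hex
    obtain ⟨Z, hZ1, hZ2⟩ := ein_of_not_ex h hH hU2 hU1
    refine ⟨U.card, ?_, (U, Z), ?_, hZ2⟩
    · rw [Finset.mem_Icc]
      refine ⟨?_, hU1⟩
      rw [Nat.one_le_iff_ne_zero]
      intro h0
      rw [h0] at hU2
      simp at hU2
    · rw [Finset.mem_product]
      exact ⟨Finset.mem_powersetCard.2 ⟨Finset.subset_univ _, rfl⟩,
        Finset.mem_powersetCard.2 ⟨Finset.subset_univ _, hZ1⟩⟩
  · intro u hu1 hu2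
    have hreg := region_bound (M := M) (d := d)
      ((Finset.powersetCard u (Finset.univ : Finset (Fin M))) ×ˢ
        (Finset.powersetCard (e * u) (Finset.univ : Finset (Fin M))))
      (fun i => pairs i.1 i.2) (u * (e * u)) (u * (2 ^ (s - 1) * c ^ (A - 1))) (2 ^ (s - 5))
      ?_ ?_ (d_ge h) (M_ge h) ?_
    rotate_left
    · rintro ⟨X, Y⟩ hXY
      rw [Finset.mem_product, Finset.mem_powersetCard, Finset.mem_powersetCard] at hXY
      refine (pairs_card _ _).trans ?_
      simp only at hXY ⊢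
      rw [hXY.1.2, hXY.2.2]
    · -- 6 * r * d * q ≤ t * M
      have e1 : c ^ A = e * c ^ 2 := by
        rw [he, ← pow_add]; congr 1; omega
      have e2 : c ^ (A - 1) = e * c := by
        rw [he, ← pow_succ]; congr 1; omega
      have e3 : 32 * 2 ^ (s - 5) = c := by
        rw [h.hc, show (32 : ℕ) = 2 ^ 5 by norm_num, ← pow_add]; congr 1; omega
      have e4 : 2 * 2 ^ (s - 1) = c := by
        rw [h.hc, ← pow_succ']; congr 1; omega
      have e5 : M = β * (c ^ (A - 1)) := by
        rw [h.hM, h.hβ, ← pow_add]; congr 1; omega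
      rw [e5, h.hd, e1, e2]
      -- 6 * (u * (e*u)) * (e * c^2) * q ≤ u * (2^(s-1) * (e * c)) * (β * (e * c))
      have key : 6 * u * 2 ^ (s - 5) ≤ 2 ^ (s - 1) * β := by
        have h1 : 32 * (6 * u * 2 ^ (s - 5)) ≤ 32 * (2 ^ (s - 1) * β) := by
          calc 32 * (6 * u * 2 ^ (s - 5)) = 6 * u * (32 * 2 ^ (s - 5)) := by ring
            _ = 6 * u * c := by rw [e3]
            _ ≤ 6 * (2 * β) * c := by gcongr
            _ ≤ 16 * β * c := by nlinarith [Nat.zero_le (β * c)]
            _ = 16 * β * (2 * 2 ^ (s - 1)) := by rw [e4]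
            _ = 32 * (2 ^ (s - 1) * β) := by ring
        exact Nat.le_of_mul_le_mul_left h1 (by norm_num)
      calc 6 * (u * (e * u)) * (e * c ^ 2) * 2 ^ (s - 5)
          = (6 * u * 2 ^ (s - 5)) * (u * e * e * c ^ 2) := by ring
        _ ≤ (2 ^ (s - 1) * β) * (u * e * e * c ^ 2) := Nat.mul_le_mul_right _ key
        _ = u * (2 ^ (s - 1) * (e * c)) * (β * (e * c)) := by ring
    · -- 8 * t ≤ M * d
      have e4 : 2 * 2 ^ (s - 1) = c := by
        rw [h.hc, ← pow_succ']; congr 1; omega
      have e6 : 2 ^ (s - 1) ≤ c := by omega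
      have e7 : 16 ≤ c ^ (A - 1) := by
        calc 16 ≤ c := by have := c_ge h; omega
          _ = c ^ 1 := (pow_one c).symm
          _ ≤ c ^ (A - 1) := Nat.pow_le_pow_right hcpos (by omega)
      calc 8 * (u * (2 ^ (s - 1) * c ^ (A - 1))) ≤ 8 * ((2 * β) * (c * c ^ (A - 1))) := by gcongr
        _ = 16 * (β * c ^ A) := by
          have : c * c ^ (A - 1) = c ^ A := by rw [← pow_succ']; congr 1; omega
          rw [this]; ring
        _ ≤ c ^ (A - 1) * (β * c ^ A) := Nat.mul_le_mul_right _ e7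
        _ = M * d := by
          rw [h.hM, h.hβ, h.hd, ← pow_add, ← pow_add, ← pow_add]; congr 1; omega
    refine size_bound hreg ?_ (by positivity)
    -- 10 * (2β) * |s| ≤ q^t
    rw [Finset.card_product]
    have hcard : (Finset.powersetCard u (Finset.univ : Finset (Fin M))).card *
        (Finset.powersetCard (e * u) (Finset.univ : Finset (Fin M))).card ≤ M ^ u * M ^ (e * u) :=
      Nat.mul_le_mul (powersetCard_card _ _) (powersetCard_card _ _)
    refine (Nat.mul_le_mul_left _ hcard).trans ?_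
    have hβ2 := β_two h
    have hM2 := M_two h
    calc 10 * (2 * β) * (M ^ u * M ^ (e * u))
        ≤ 2 ^ 5 * β * (M ^ u * M ^ (e * u)) := Nat.mul_le_mul_right _ (by omega)
      _ = 2 ^ (5 + s * (2 * A + 2) + s * (3 * A + 1) * (u + e * u)) := by
          rw [hβ2, hM2]
          ring
      _ ≤ 2 ^ ((s - 5) * (u * (2 ^ (s - 1) * c ^ (A - 1)))) := by
          apply Nat.pow_le_pow_right (by norm_num)
          have hue : 1 ≤ u * e := Nat.mul_pos hu1 he1
          have e2 : c ^ (A - 1) = e * c := by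
            rw [he, ← pow_succ]; congr 1; omega
          have f1 : 5 + s * (2 * A + 2) + s * (3 * A + 1) * (u + e * u) ≤
              (u * e) * (1000 * (A + 1) * (s + 1)) := by
            have g1 : u + e * u ≤ 2 * (u * e) := by nlinarith
            calc 5 + s * (2 * A + 2) + s * (3 * A + 1) * (u + e * u)
                ≤ (5 + s * (2 * A + 2)) * (u * e) + s * (3 * A + 1) * (2 * (u * e)) := by
                  have := Nat.mul_le_mul_left (5 + s * (2 * A + 2)) hue
                  have := Nat.mul_le_mul_left (s * (3 * A + 1)) g1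
                  omega
              _ = (u * e) * (5 + s * (2 * A + 2) + s * (3 * A + 1) * 2) := by ring
              _ ≤ (u * e) * (1000 * (A + 1) * (s + 1)) := by
                  apply Nat.mul_le_mul_left
                  nlinarith
          calc 5 + s * (2 * A + 2) + s * (3 * A + 1) * (u + e * u)
              ≤ (u * e) * (1000 * (A + 1) * (s + 1)) := f1
            _ ≤ (u * e) * c := Nat.mul_le_mul_left _ h.hs
            _ = 1 * (u * (1 * (e * c))) := by ring
            _ ≤ (s - 5) * (u * (2 ^ (s - 1) * (e * c))) := by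
                gcongr
                · omega
                · exact Nat.one_le_two_pow
            _ = (s - 5) * (u * (2 ^ (s - 1) * c ^ (A - 1))) := by rw [e2]
      _ = (2 ^ (s - 5)) ^ (u * (2 ^ (s - 1) * c ^ (A - 1))) := by rw [← pow_mul]

end Pool.Agent.helper11.Tight
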